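import Pool.Agent.H542.TW.T12

/-!
Let `f` be a polynomial with integer coefficients and positive leading coefficient, of degree
`d ≥ 2`, and let `h ≠ 0` be an integer.  For all but few of the shifts `a ≤ x ^ d` there are as many
`m ≤ x` as expected (up to a constant factor) such that `f(m) + a` is prime and `f(m) + a + h` has at
most three prime factors, all of them large.
-/

set_option autoImplicit false

namespace Pool.Agent.Results.MP_2dba45_nt.ChenShifts

open Finset Polynomial

/-- the number of the residues `s` modulo `p` such that `p` divides `(f(s) + a) (f(s) + a + h)` -/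
def omega (f : ℤ[X]) (a h : ℤ) (p : ℕ) : ℕ :=
  ((range p).filter (fun s : ℕ => (p : ℤ) ∣ (f.eval (s : ℤ) + a) * (f.eval (s : ℤ) + a + h))).card

/-- the product over the primes `p ≤ log x` of the local factors of Bateman and Horn for the pair
`f(m) + a`, `f(m) + a + h` -/
noncomputable def singular (f : ℤ[X]) (a h : ℤ) (x : ℕ) : ℝ :=
  ∏ p ∈ (Icc 1 ⌊Real.log x⌋₊).filter Nat.Prime,
    ((1 - (omega f a h p : ℝ) / p) / (1 - 1 / (p : ℝ)) ^ 2)

open Classical in
/-- the integers `1 ≤ m ≤ x` such that `f(m) + a` is a prime, `f(m) + a + h > 1` has at most three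
prime factors counted with multiplicity, and all these prime factors are at least `x ^ (3 d / 25)`,
where `d` is the degree of `f` -/
noncomputable def pairs (f : ℤ[X]) (a h : ℤ) (x : ℕ) : Finset ℕ :=
  (Icc 1 x).filter (fun m : ℕ => (f.eval (m : ℤ) + a).toNat.Prime ∧ 1 < f.eval (m : ℤ) + a + h ∧
    (f.eval (m : ℤ) + a + h).toNat.primeFactorsList.length ≤ 3 ∧
    ∀ p : ℕ, p.Prime → (p : ℤ) ∣ f.eval (m : ℤ) + a + h →
      (x : ℝ) ^ (3 * (f.natDegree : ℝ) / 25) ≤ p)

theorem result (f : ℤ[X]) (hd : 2 ≤ f.natDegree) (hlc : 0 < f.leadingCoeff) (h : ℤ) (hh : h ≠ 0)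
    (U : ℕ) : ∃ c : ℝ, 0 < c ∧ ∃ x0 : ℕ, ∀ x : ℕ, x0 ≤ x → ∃ E : Finset ℕ,
    (E.card : ℝ) ≤ (x : ℝ) ^ f.natDegree / Real.log x ^ U ∧
    ∀ a ∈ Icc 1 (x ^ f.natDegree), a ∉ E →
      c * singular f a h x * (x / Real.log x ^ 2) ≤ (pairs f a h x).card ∧
      ((∀ p : ℕ, p.Prime → omega f a h p < p) →
        c / Real.log (Real.log x) ^ (2 * f.natDegree - 2) ≤ singular f a h x) := by
  classical
  obtain ⟨c, hc, x0, H⟩ := Pool.Agent.H542.TW.main f (by omega) hlc h hh U
  obtain ⟨c', hc', H'⟩ := Pool.Agent.H542.TW.SS_low f (by omega) h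
  obtain ⟨x1, hx1⟩ := Filter.eventually_atTop.1 (Pool.Agent.H542.TW.log_big 4)
  have hsing : ∀ (a : ℤ) (x : ℕ), singular f a h x = Pool.Agent.H542.TW.SS f a h ⌊Real.log x⌋₊ := by
    intro a x
    rfl
  refine ⟨min c c', lt_min hc hc', max x0 (max x1 1), fun x hx => ?_⟩
  have hx0 : x0 ≤ x := (le_max_left _ _).trans hx
  have hxx1 : x1 ≤ x := ((le_max_left _ _).trans (le_max_right _ _)).trans hx
  have hx1' : 1 ≤ x := ((le_max_right _ _).trans (le_max_right _ _)).trans hx
  obtain ⟨E, hE, HE⟩ := H x hx0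
  refine ⟨E, hE, fun a ha haE => ⟨?_, fun hfix => ?_⟩⟩
  · have h1 := HE a ha haE
    have h2 : 0 ≤ singular f a h x := by
      rw [hsing]
      unfold Pool.Agent.H542.TW.SS
      apply prod_nonneg
      intro p hp
      exact div_nonneg (Pool.Agent.H542.TW.om_fac_nonneg f a h p (Pool.Agent.H542.TW.mem_pz.1 hp).1)
        (sq_nonneg _)
    calc min c c' * singular f a h x * (x / Real.log x ^ 2) ≤
        c * singular f a h x * (x / Real.log x ^ 2) := by
          apply mul_le_mul_of_nonneg_right _ (by positivity)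
          exact mul_le_mul_of_nonneg_right (min_le_left _ _) h2
      _ ≤ _ := h1
      _ ≤ (pairs f a h x).card := by
          norm_cast
          apply card_le_card
          intro m hm
          rw [mem_filter] at hm
          unfold pairs
          rw [mem_filter]
          obtain ⟨hm1, hm2, hm3, hm4, hm5⟩ := hm
          refine ⟨hm1, hm2, hm3, hm4, fun p hp hpd => ?_⟩
          have h3 : p ∣ (f.eval (m : ℤ) + a + h).toNat := by
            have h4 : (((f.eval (m : ℤ) + a + h).toNat : ℕ) : ℤ) = f.eval (m : ℤ) + a + h :=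
              Int.toNat_of_nonneg (by omega)
            rw [← h4] at hpd
            exact_mod_cast hpd
          refine le_trans (le_of_eq ?_) (hm5 p hp h3)
          push_cast
          rw [← Real.rpow_natCast, ← Real.rpow_mul (Nat.cast_nonneg _)]
          congr 1
          ring
  · have hl := hx1 x hxx1
    have hl0 : 0 < Real.log x := by linarith
    have hw3 : 3 ≤ ⌊Real.log x⌋₊ := Nat.le_floor (by push_cast; linarith)
    have h1 := H' a ⌊Real.log x⌋₊ hw3 (fun p hp => hfix p (Pool.Agent.H542.TW.mem_pz.1 hp).1)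
    have h2 : (⌊Real.log x⌋₊ : ℝ) ≤ Real.log x := Nat.floor_le hl0.le
    have hw3r : (3 : ℝ) ≤ (⌊Real.log x⌋₊ : ℝ) := by exact_mod_cast hw3
    have h3 : 0 < Real.log (⌊Real.log x⌋₊ : ℝ) := Real.log_pos (by linarith)
    have h4 : Real.log (⌊Real.log x⌋₊ : ℝ) ≤ Real.log (Real.log x) :=
      Real.log_le_log (by linarith) h2
    calc min c c' / Real.log (Real.log x) ^ (2 * f.natDegree - 2) ≤
        c' / Real.log (Real.log x) ^ (2 * f.natDegree - 2) :=
          div_le_div_of_nonneg_right (min_le_right _ _) (pow_nonneg (h3.le.trans h4) _)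
      _ ≤ c' / Real.log (⌊Real.log x⌋₊ : ℝ) ^ (2 * f.natDegree - 2) := by
          apply div_le_div_of_nonneg_left hc'.le (by positivity)
          exact pow_le_pow_left₀ h3.le h4 _
      _ ≤ _ := h1

end Pool.Agent.Results.MP_2dba45_nt.ChenShifts
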