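import Pool.Agent.H543.MQ.Inst
import Pool.Agent.H543.MQ.R.R4
import Pool.Agent.H543.MQ.U.Gold

/-!
# `m ^ 2 + 1` with at most two prime factors and `m ^ 2 + 3` almost prime, in bounded clusters

One of the numbers `m ^ 2 + 1`, `m ^ 2 + 3` has at most two prime factors and the other one has no
small prime factor, simultaneously for all the elements of a bounded cluster of arguments `m`.
-/

set_option autoImplicit false

namespace Pool.Agent.Results.MP_2dba45_nt.ClustersOfAlmostPrimePairs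

open Finset Filter Polynomial

/-- `x ^ 2 + a` has at most two prime factors (with multiplicity), all of them `≥ N ^ (6 / 25)`, and
`x ^ 2 + b` has no prime factor `< N ^ δ`. -/
def Good (a b : ℕ) (δ : ℝ) (N x : ℕ) : Prop :=
  (x ^ 2 + a).primeFactorsList.length ≤ 2 ∧
  (∀ p : ℕ, p.Prime → p ∣ x ^ 2 + a → (N : ℝ) ^ (6 / 25 : ℝ) ≤ p) ∧
  ∀ p : ℕ, p.Prime → p ∣ x ^ 2 + b → (N : ℝ) ^ δ ≤ p

open Classical in
/-- The number of the `n` in `(N, N + X]` such that all `n + h`, `h ∈ H`, are good. -/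
noncomputable def number (a b : ℕ) (δ : ℝ) (H : Finset ℕ) (N X : ℕ) : ℕ :=
  ((Ioc N (N + X)).filter (fun n : ℕ => ∀ h ∈ H, Good a b δ N (n + h))).card

/-- The number of the `n` in `(N, N + X]` in the class of `x₀` modulo `q` such that `n ^ 2 + a` has at
most two prime factors and `n ^ 2 + b` has at most `r` prime factors (with multiplicity). -/
def pairs (a b r q x₀ N X : ℕ) : ℕ :=
  ((Ioc N (N + X)).filter (fun n : ℕ => n % q = x₀ % q ∧ (n ^ 2 + a).primeFactorsList.length ≤ 2 ∧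
    (n ^ 2 + b).primeFactorsList.length ≤ r)).card

/-- There is a progression `n, n + d, ..., n + (l - 1) d` in `(N, N + X]` with difference
`1 ≤ d ≤ (log N) ^ B` such that all `n + j d + h`, `j < l`, `h ∈ H`, are good. -/
def Progression (a b : ℕ) (δ : ℝ) (H : Finset ℕ) (l B N X : ℕ) : Prop :=
  ∃ n d : ℕ, N < n ∧ n + (l - 1) * d ≤ N + X ∧ 1 ≤ d ∧ (d : ℝ) ≤ Real.log N ^ B ∧
    ∀ j < l, ∀ h ∈ H, Good a b δ N (n + j * d + h)

/-- The pattern `H` occurs again and again: for every `l` there are infinitely many `N` such that the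
interval `(N, N + X]`, `X = ⌈N ^ (1 - δ₀)⌉`, contains at least `X / (log N) ^ D` integers `n` with all
`n + h`, `h ∈ H`, good, and a progression of length `l` of such `n` with difference at most a power of
`log N`. -/
def Recurrent (a b : ℕ) (δ₀ δ : ℝ) (D : ℕ) (H : Finset ℕ) : Prop :=
  ∀ l : ℕ, 2 ≤ l → ∃ B : ℕ, ∃ᶠ N : ℕ in atTop,
    (⌈(N : ℝ) ^ (1 - δ₀)⌉₊ : ℝ) / Real.log N ^ D ≤ number a b δ H N ⌈(N : ℝ) ^ (1 - δ₀)⌉₊ ∧
    Progression a b δ H l B N ⌈(N : ℝ) ^ (1 - δ₀)⌉₊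

open Classical in
/-- The right order of magnitude. -/
theorem order (a b : ℕ) (hab : (a = 1 ∧ b = 3) ∨ (a = 3 ∧ b = 1)) :
    ∃ (r : ℕ) (c δ₀ δ : ℝ), 0 < c ∧ 0 < δ₀ ∧ 0 < δ ∧ ∀ᶠ N : ℕ in atTop,
      ∀ q x₀ : ℕ, 0 < q → (q : ℝ) ≤ (N : ℝ) ^ δ → Nat.Coprime ((x₀ ^ 2 + 1) * (x₀ ^ 2 + 3)) q →
        ∀ X : ℕ, (N : ℝ) ^ (1 - δ₀) ≤ X → 2 * X ≤ N →
          c * (X / (q * Real.log N ^ 2)) ≤ pairs a b r q x₀ N X := by
  have hmul : ∀ n : ℤ, (n ^ 2 + (a : ℤ)) * (n ^ 2 + (b : ℤ)) = (n ^ 2 + 1) * (n ^ 2 + 3) := by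
    intro n
    rcases hab with ⟨rfl, rfl⟩ | ⟨rfl, rfl⟩ <;> push_cast <;> ring
  have hfv : ∀ x : ℤ, Pool.Agent.H543.DP.fv 1 0 (a : ℤ) x = x ^ 2 + a := by
    intro x
    unfold Pool.Agent.H543.DP.fv
    push_cast
    ring
  obtain ⟨gb, hgb⟩ : ∃ gb : ℤ[X], gb = X ^ 2 + C (b : ℤ) := ⟨_, rfl⟩
  have hgd : gb.natDegree ≤ 2 := by
    rw [hgb]
    compute_degree
  have hgv : ∀ x : ℤ, gb.eval x = x ^ 2 + b := by
    intro x
    rw [hgb]
    simp
  have hnf : ∀ p : ℕ, p.Prime → ∃ n : ℤ, ¬ (p : ℤ) ∣ (n ^ 2 + 1) * (n ^ 2 + 3) := by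
    intro p hp
    by_cases hp3 : p = 3
    · refine ⟨1, ?_⟩
      rw [hp3]
      norm_num
    · refine ⟨0, ?_⟩
      intro hd
      have hd' : p ∣ 3 := by
        have : (p : ℤ) ∣ 3 := by simpa using hd
        exact_mod_cast this
      exact hp3 ((Nat.prime_dvd_prime_iff_eq hp Nat.prime_three).1 hd')
  have hsq : ¬ IsSquare ((0 : ℤ) ^ 2 - 4 * ((1 : ℕ) : ℤ) * (a : ℤ)) := by
    rintro ⟨r, hr⟩
    have : 0 ≤ r * r := mul_self_nonneg r
    rcases hab with ⟨rfl, rfl⟩ | ⟨rfl, rfl⟩ <;> norm_num at hr <;> omega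
  obtain ⟨δ₀, hδ₀, -, h⟩ := Pool.Agent.H543.MQ.R.one_poly_q 1 0 (a : ℤ) le_rfl hsq
  obtain ⟨δ, c, hδ, hc, h⟩ := h 2
  -- the product over the primes
  obtain ⟨P, hPdef⟩ : ∃ P : ℤ[X], P = (X ^ 2 + C 1) * (X ^ 2 + C 3) := ⟨_, rfl⟩
  have hPe : ∀ n : ℤ, P.eval n = (n ^ 2 + 1) * (n ^ 2 + 3) := by
    intro n
    rw [hPdef]
    simp
  have hPs : Pool.Agent.H543.MQ.U.Sys0 4 (fun n => P.eval n) := by
    apply Pool.Agent.H543.MQ.U.sys0_poly
    · rw [hPdef]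
      compute_degree
    · intro p hp
      obtain ⟨n, hn⟩ := hnf p hp
      exact ⟨n, by rwa [hPe]⟩
  have hnsq : ∀ u : ℤ, 0 < u → ¬ IsSquare (-u) := by
    rintro u hu ⟨s, hs⟩
    have := mul_self_nonneg s
    omega
  obtain ⟨cP, hcP, hP⟩ := Pool.Agent.H543.MQ.R.prod_low P 4 hPs 2
    ![Pool.Agent.Y882.SI.QF 1, Pool.Agent.Y882.SI.QF 3] (by
      intro i
      fin_cases i
      · exact Pool.Agent.Y882.SI.QF_irred 1 (hnsq 1 (by norm_num))
      · exact Pool.Agent.Y882.SI.QF_irred 3 (hnsq 3 (by norm_num))) (by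
      have hd : ∀ u : ℤ, 0 < (Pool.Agent.Y882.SI.QF u).natDegree := by
        intro u
        unfold Pool.Agent.Y882.SI.QF
        rw [natDegree_X_pow_add_C]
        norm_num
      intro i
      fin_cases i
      · exact hd 1
      · exact hd 3) (by
      intro p hp n hn
      rw [hPe] at hn
      rcases (Nat.prime_iff_prime_int.1 hp).dvd_or_dvd hn with h1 | h1
      · refine ⟨0, ?_⟩
        show (p : ℤ) ∣ (Pool.Agent.Y882.SI.QF 1).eval n
        rw [Pool.Agent.Y882.SI.QF_eval]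
        exact h1
      · refine ⟨1, ?_⟩
        show (p : ℤ) ∣ (Pool.Agent.Y882.SI.QF 3).eval n
        rw [Pool.Agent.Y882.SI.QF_eval]
        exact h1)
  obtain ⟨r, hr⟩ : ∃ r : ℕ, 3 / δ ≤ r := exists_nat_ge _
  refine ⟨r, c * cP, δ₀, δ, by positivity, hδ₀, hδ, ?_⟩
  filter_upwards [h, eventually_ge_atTop 10] with N hN hN10 q x₀ hq hqN hcop X hX1 hX2
  have hNr : (10 : ℝ) ≤ N := by exact_mod_cast hN10
  have hqr : (0 : ℝ) < q := by exact_mod_cast hq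
  have hl : 0 < Real.log N := Real.log_pos (by linarith)
  have hnum := hN gb hgd (by
      intro p hp
      obtain ⟨n, hn⟩ := hnf p hp
      exact ⟨n, by rwa [hfv, hgv, hmul]⟩) q x₀ hq hqN (by
      intro p hp hpq hd
      rw [hfv, hgv, hmul] at hd
      have hd' : p ∣ (x₀ ^ 2 + 1) * (x₀ ^ 2 + 3) := by exact_mod_cast hd
      have := Nat.dvd_gcd hd' hpq
      rw [hcop] at this
      exact hp.one_lt.ne' (Nat.dvd_one.1 this)) X hX1 hX2
  have hF : (fun n : ℤ => Pool.Agent.H543.DP.fv 1 0 (a : ℤ) n * gb.eval n) = fun n => P.eval n := by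
    funext n
    rw [hfv, hgv, hmul, hPe]
  rw [hF] at hnum
  have hPN := hP N (by omega)
  have hrt : ∀ p : ℕ, p.Prime → 0 ≤ 1 - (Pool.Agent.Y677.RSZ.rt (fun n => P.eval n) p : ℝ) / p ∧
      1 - (Pool.Agent.Y677.RSZ.rt (fun n => P.eval n) p : ℝ) / p ≤ 1 := by
    intro p hp
    have hp0 : (0 : ℝ) < p := by exact_mod_cast hp.pos
    have h1 := (hPs.root p hp).2
    have h2 : (Pool.Agent.Y677.RSZ.rt (fun n => P.eval n) p : ℝ) / p ≤ 1 := by
      rw [div_le_one hp0]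
      exact_mod_cast h1.le
    have h3 : 0 ≤ (Pool.Agent.Y677.RSZ.rt (fun n => P.eval n) p : ℝ) / p := by positivity
    constructor <;> linarith
  have hPP : cP / Real.log N ^ 2 ≤ ∏ p ∈ Pool.Agent.TH423.SH.PS q N,
      (1 - (Pool.Agent.Y677.RSZ.rt (fun n => P.eval n) p : ℝ) / p) := by
    refine hPN.trans ?_
    have hsub : Pool.Agent.TH423.SH.PS q N ⊆ (Icc 1 N).filter Nat.Prime := by
      intro p hp
      unfold Pool.Agent.TH423.SH.PS at hp
      rw [mem_filter] at hp ⊢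
      exact ⟨hp.1, hp.2.1⟩
    rw [← prod_sdiff hsub]
    refine (mul_le_mul_of_nonneg_right ?_ (prod_nonneg fun p hp =>
      (hrt p (mem_filter.1 (hsub hp)).2).1)).trans (le_of_eq (one_mul _))
    apply prod_le_one
    · intro p hp
      exact (hrt p (mem_filter.1 (mem_sdiff.1 hp).1).2).1
    · intro p hp
      exact (hrt p (mem_filter.1 (mem_sdiff.1 hp).1).2).2
  have hsub : ((Ioc N (N + X)).filter (fun n : ℕ => n % q = x₀ % q ∧
      Pool.Agent.H543.MQ.U.Gf 1 0 (a : ℤ) (fun n => gb.eval n) N δ n)).card ≤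
      pairs a b r q x₀ N X := by
    unfold pairs
    apply card_le_card
    intro n hn
    rw [mem_filter] at hn ⊢
    obtain ⟨hn1, hn2, g1, g2, g3⟩ := hn
    rw [mem_Ioc] at hn1
    rw [hfv] at g1
    have e1 : (((n : ℕ) : ℤ) ^ 2 + (a : ℤ)).natAbs = n ^ 2 + a := by
      have : ((n : ℕ) : ℤ) ^ 2 + (a : ℤ) = ((n ^ 2 + a : ℕ) : ℤ) := by push_cast; ring
      rw [this, Int.natAbs_natCast]
    rw [e1] at g1
    refine ⟨mem_Ioc.2 hn1, hn2, g1, ?_⟩
    have hn0 : 0 < n ^ 2 := pow_pos (by omega) 2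
    apply Pool.Agent.H543.MQ.U.om_r _ N δ 3 r (by omega) (by omega) hδ ?_ hr
    · intro p hp hpd
      apply g3 p hp
      show (p : ℤ) ∣ gb.eval (n : ℤ)
      rw [hgv]
      exact_mod_cast hpd
    · have hb3 : b ≤ 3 := by rcases hab with ⟨rfl, rfl⟩ | ⟨rfl, rfl⟩ <;> norm_num
      have h1 : n ≤ 2 * N := by omega
      have h2 : n ^ 2 + b ≤ N ^ 3 := by
        have h3 := Nat.pow_le_pow_left h1 2
        have h4 : (2 * N) ^ 2 = 4 * N ^ 2 := by ring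
        have h5 : N ^ 3 = N * N ^ 2 := by ring
        have h6 : 10 * N ^ 2 ≤ N * N ^ 2 := Nat.mul_le_mul_right _ hN10
        have h7 : 1 ≤ N ^ 2 := Nat.one_le_pow _ _ (by omega)
        omega
      have h3 : ((n ^ 2 + b : ℕ) : ℝ) ≤ (N : ℝ) ^ (3 : ℕ) := by exact_mod_cast h2
      refine h3.trans (le_of_eq ?_)
      rw [← Real.rpow_natCast]
      norm_num
  have hX0 : (0 : ℝ) ≤ X := Nat.cast_nonneg _
  calc c * cP * (X / (q * Real.log N ^ 2)) = c * (X / q * (cP / Real.log N ^ 2)) := by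
        field_simp
    _ ≤ c * (X / q * ∏ p ∈ Pool.Agent.TH423.SH.PS q N,
        (1 - (Pool.Agent.Y677.RSZ.rt (fun n => P.eval n) p : ℝ) / p)) := by
        apply mul_le_mul_of_nonneg_left _ hc.le
        exact mul_le_mul_of_nonneg_left hPP (by positivity)
    _ ≤ _ := hnum
    _ ≤ _ := by exact_mod_cast hsub

open Classical in
/-- **Bounded clusters of `x` with `x ^ 2 + a` a `P₂` and `x ^ 2 + b` almost prime, `{a, b} = {1, 3}`.** -/
theorem result (a b : ℕ) (hab : (a = 1 ∧ b = 3) ∨ (a = 3 ∧ b = 1)) :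
    -- the right order of magnitude in short intervals and in residue classes
    (∃ (r : ℕ) (c δ₀ δ : ℝ), 0 < c ∧ 0 < δ₀ ∧ 0 < δ ∧ ∀ᶠ N : ℕ in atTop,
      ∀ q x₀ : ℕ, 0 < q → (q : ℝ) ≤ (N : ℝ) ^ δ → Nat.Coprime ((x₀ ^ 2 + 1) * (x₀ ^ 2 + 3)) q →
        ∀ X : ℕ, (N : ℝ) ^ (1 - δ₀) ≤ X → 2 * X ≤ N →
          c * (X / (q * Real.log N ^ 2)) ≤ pairs a b r q x₀ N X) ∧
    -- bounded clusters
    ∃ δ₀ : ℝ, 0 < δ₀ ∧ ∀ m : ℕ, ∃ (K D : ℕ) (δ : ℝ), 0 < δ ∧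
      -- every set with at least `K` elements contains a pattern with `m` elements
      (∀ S : Finset ℕ, K ≤ S.card → ∀ l : ℕ, 2 ≤ l → ∃ B : ℕ, ∀ᶠ N : ℕ in atTop,
        ∀ X : ℕ, (N : ℝ) ^ (1 - δ₀) ≤ X → 2 * X ≤ N → ∃ H ⊆ S, H.card = m ∧
          X / Real.log N ^ D ≤ number a b δ H N X ∧ Progression a b δ H l B N X) ∧
      -- a positive proportion of the patterns with `m` elements are recurrent
      (∀ U : Finset ℕ, K ≤ U.card → U.card.choose m ≤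
        K.choose m * ((U.powersetCard m).filter (Recurrent a b δ₀ δ D)).card) := by
  refine ⟨order a b hab, ?_⟩
  have hval : ∀ (c x : ℕ), Pool.Agent.H543.MQ.val 1 0 c x = ((x ^ 2 + c : ℕ) : ℤ) := by
    intro c x
    unfold Pool.Agent.H543.MQ.val
    push_cast
    ring
  have hgv : ∀ x : ℤ, ((X ^ 2 + C (b : ℤ)) : ℤ[X]).eval x = x ^ 2 + b := by
    intro x
    simp
  have hgne : ((X ^ 2 + C (b : ℤ)) : ℤ[X]) ≠ 0 := by
    intro h
    have h1 := congrArg (fun Q : ℤ[X] => Q.eval 0) h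
    have h2 := congrArg (fun Q : ℤ[X] => Q.eval 1) h
    simp only [hgv, eval_zero] at h1 h2
    omega
  have hsq : ¬ IsSquare ((0 : ℤ) ^ 2 - 4 * 1 * (a : ℤ)) := by
    rintro ⟨r, hr⟩
    have : 0 ≤ r * r := mul_self_nonneg r
    rcases hab with ⟨rfl, rfl⟩ | ⟨rfl, rfl⟩ <;> norm_num at hr <;> omega
  obtain ⟨δ₀, h0, h⟩ := Pool.Agent.H543.MQ.inst 1 0 (a : ℤ) one_pos hsq (X ^ 2 + C (b : ℤ)) hgne
    (by
      intro p hp
      by_cases hp3 : p = 3
      · refine ⟨1, ?_⟩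
        rw [hgv, hp3]
        unfold Pool.Agent.H543.MQ.val
        rcases hab with ⟨rfl, rfl⟩ | ⟨rfl, rfl⟩ <;> norm_num
      · refine ⟨0, ?_⟩
        rw [hgv]
        have e : Pool.Agent.H543.MQ.val 1 0 (a : ℤ) 0 * ((0 : ℤ) ^ 2 + b) = 3 := by
          unfold Pool.Agent.H543.MQ.val
          rcases hab with ⟨rfl, rfl⟩ | ⟨rfl, rfl⟩ <;> norm_num
        rw [e]
        intro hd
        have hd' : p ∣ 3 := by exact_mod_cast hd
        exact hp3 ((Nat.prime_dvd_prime_iff_eq hp Nat.prime_three).1 hd'))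
  refine ⟨δ₀, h0, fun m => ?_⟩
  obtain ⟨K, D, δ, hδ, h⟩ := h m
  refine ⟨K, D, δ, hδ, h (fun N x => Good a b δ N x) (fun N x hx => ?_)⟩
  obtain ⟨h1, h2, h3⟩ := hx
  rw [hval, Int.natAbs_natCast] at h1
  refine ⟨h1, fun p hp hpx => h2 p hp (by rw [hval]; exact_mod_cast hpx), fun p hp hpx => h3 p hp ?_⟩
  rw [hgv]
  exact_mod_cast hpx

end Pool.Agent.Results.MP_2dba45_nt.ClustersOfAlmostPrimePairs
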