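import Pool.Agent.H540.TE.Pg

/-!
# `m ^ 2 + 1` and `m ^ 2 + 3` simultaneously almost prime, `m` a difference of elements of a set of `N ^ (1 - c)` integers

A theorem of the type of Furstenberg and Sárközy, with a power saving. Let `δ > 0`. There are `c > 0` and `R` such
that for large `N` in every set `A` of integers in `[1, N]` with at least `N ^ (1 - c)` elements there are at least
`N ^ (2 - δ)` pairs of elements `b < a` such that with `m = a - b` the number `m ^ 2 + 1` has at most three prime
factors, all at least `N ^ (6 / 25)`, and `m ^ 2 + 3` is `3` times a number with at most `R` prime factors, all at least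
`N ^ c` (with multiplicity). The factor `3` is necessary, since all elements of `A` may be multiples of
`3`. Moreover the differences can be sieved: for the primes `p ≤ N ^ c` let `Y p` be any set of at most `h`
nonzero residue classes; the differences may be taken outside of all these classes (`c` and `R` depend on `δ` and
`h`, but not on the classes). The class of zero cannot be excluded, since all elements of `A` may be multiples of `p`.

For `A` the set of all integers up to `N` such results are classical (Richert and others). For the differences `p - 1`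
and `p + 1`, `p` prime, such a power saving is a theorem of B. Green.

Method: the small primes (up to a small power of `N`) are sieved by a combination of additive characters with
majorising properties: with `t_p (m) = (K + 1) 1_{p | m} - x_p (m)`, where `x_p` is the indicator function of the
excluded classes and their negatives, `L = ∑_{d ≤ D} (1 - log d / log D) ∏_{p | d} t_p` and its analogues `L_p`
give `f = L ^ 2 - ∑_p x_p L_p ^ 2 ≤ 0` outside of the sifted set, and the Fourier coefficients of `f`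
which are not small are nonnegative, so that their contribution is bounded from below by the main term, however sparse
`A` is. The larger primes are treated by the linear sieve with the weights of Richert, with the level `N ^ (24 / 25)`:
the mean free parts of their indicator functions, multiplied by `L ^ 2` or `L_p ^ 2`, are dominated
by functions with nonnegative coefficients, whose pair sums are bounded by the large sieve; the loss by the
sparsity of `A` is compensated by the gain from the size of these primes.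
-/

set_option autoImplicit false

namespace Pool.Agent.Results.MP_2dba45_nt.DifferencesOfSparseSets

open Finset Filter Polynomial

/-- `n` is positive and has at most `r` prime factors, counted with multiplicity, all at least `y`. -/
def AlmostPrime (r : ℕ) (y : ℝ) (n : ℕ) : Prop :=
  0 < n ∧ n.primeFactorsList.length ≤ r ∧ ∀ p : ℕ, p.Prime → p ∣ n → y ≤ p

/-- For each prime `p ≤ y` the set `Y p` has at most `h` elements and does not contain `0`. -/
def Classes (h : ℕ) (y : ℝ) (Y : ℕ → Finset ℕ) : Prop :=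
  ∀ p : ℕ, p.Prime → (p : ℝ) ≤ y → (Y p).card ≤ h ∧ 0 ∉ Y p

/-- `m` is modulo no prime `p ≤ y` congruent to an element of `Y p` (the elements of `Y p` are less than `p`). -/
def Avoids (y : ℝ) (Y : ℕ → Finset ℕ) (m : ℕ) : Prop :=
  ∀ p : ℕ, p.Prime → (p : ℝ) ≤ y → m % p ∉ Y p

open Classical in
/-- The number of pairs of elements `b < a` of `A` for which `m = a - b` avoids the classes of `Y` modulo the primes up
to `y`, the number `m ^ 2 + 1` has at most three prime factors, all at least `z`, and `m ^ 2 + 3 = 3 n`, where `n` has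
at most `R` prime factors, all at least `y`, counted with multiplicity. -/
noncomputable def pairCount (R : ℕ) (Y : ℕ → Finset ℕ) (y z : ℝ) (A : Finset ℕ) : ℕ :=
  ((A ×ˢ A).filter (fun w : ℕ × ℕ => w.2 < w.1 ∧ Avoids y Y (w.1 - w.2) ∧
    AlmostPrime 3 z ((w.1 - w.2) ^ 2 + 1) ∧ ∃ n : ℕ, (w.1 - w.2) ^ 2 + 3 = 3 * n ∧ AlmostPrime R y n)).card

theorem deg : (C 9 * X ^ 2 + 1 : ℤ[X]).natDegree = 2 := by compute_degree!

theorem irr : Irreducible (C 9 * X ^ 2 + 1 : ℤ[X]) := by
  have hp : (C 9 * X ^ 2 + 1 : ℤ[X]).IsPrimitive := by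
    intro r hr
    rw [C_dvd_iff_dvd_coeff] at hr
    have h := hr 0
    simp [coeff_one] at h
    exact isUnit_of_dvd_one h
  rw [hp.irreducible_iff_irreducible_map_fraction_map (K := ℚ)]
  have e : (C 9 * X ^ 2 + 1 : ℤ[X]).map (algebraMap ℤ ℚ) = C 9 * X ^ 2 + 1 := by
    have h3 : (algebraMap ℤ ℚ) 9 = 9 := by norm_num
    rw [Polynomial.map_add, Polynomial.map_mul, Polynomial.map_pow, map_X, map_C, Polynomial.map_one, h3]
  rw [e]
  have hd : (C 9 * X ^ 2 + 1 : ℚ[X]).natDegree = 2 := by compute_degree!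
  have h0 : (C 9 * X ^ 2 + 1 : ℚ[X]) ≠ 0 := by
    intro h
    rw [h] at hd
    simp at hd
  rw [irreducible_iff_roots_eq_zero_of_degree_le_three (by rw [hd]) (by rw [hd]; norm_num)]
  rw [Multiset.eq_zero_iff_forall_notMem]
  intro x hx
  rw [mem_roots h0, IsRoot.def] at hx
  simp only [eval_add, eval_mul, eval_pow, eval_X, eval_C, eval_one] at hx
  nlinarith [sq_nonneg x]

/-- division of the classes by `3` -/
theorem div_cls (h p : ℕ) (hp : p.Prime) (Y : Finset ℕ) (hY : Y.card ≤ h) (h0 : 0 ∉ Y) :
    ((range p).filter (fun r => 3 * r % p ∈ Y)).card ≤ h ∧ 0 ∉ (range p).filter (fun r => 3 * r % p ∈ Y) := by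
  constructor
  · by_cases h3 : p = 3
    · subst h3
      have : (range 3).filter (fun r => 3 * r % 3 ∈ Y) = ∅ := by
        rw [filter_eq_empty_iff]
        intro r _ hr
        rw [Nat.mul_mod_right] at hr
        exact h0 hr
      rw [this, card_empty]
      exact Nat.zero_le _
    · refine le_trans (card_le_card_of_injOn (fun r => 3 * r % p) ?_ ?_) hY
      · intro r hr
        rw [mem_coe, mem_filter] at hr
        exact hr.2
      · intro r hr r' hr' he
        rw [mem_coe, mem_filter, mem_range] at hr hr'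
        have h4 : Nat.Coprime p 3 := by
          rw [Nat.coprime_primes hp Nat.prime_three]
          exact h3
        have h5 : 3 * r ≡ 3 * r' [MOD p] := he
        have h6 : r ≡ r' [MOD p] := Nat.ModEq.cancel_left_of_coprime h4 h5
        have h7 := h6
        unfold Nat.ModEq at h7
        rwa [Nat.mod_eq_of_lt hr.1, Nat.mod_eq_of_lt hr'.1] at h7
  · intro h1
    rw [mem_filter, mul_zero, Nat.zero_mod] at h1
    exact h0 h1.2

/-- **`m ^ 2 + 1` and `m ^ 2 + 3` almost prime at the differences of a sparse set.** Let `h` be a natural number and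
`δ > 0`. There are `c > 0` and `R` such that for all sufficiently large `N`, for any sets `Y p` of at most
`h` nonzero residue classes modulo the primes `p ≤ N ^ c`, every set `A` of integers in `[1, N]` with at least
`N ^ (1 - c)` elements has at least `N ^ (2 - δ)` pairs of elements `b < a` for which `m = a - b` lies in none of
the classes, `m ^ 2 + 1` has at most three prime factors, all at least `N ^ (6 / 25)`, and `m ^ 2 + 3 = 3 n`, where `n`
has at most `R` prime factors, all at least `N ^ c` (counted with multiplicity). -/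
theorem result (h : ℕ) (δ : ℝ) (hδ : 0 < δ) :
    ∃ (c : ℝ) (R : ℕ), 0 < c ∧ ∀ᶠ N : ℕ in atTop, ∀ (Y : ℕ → Finset ℕ) (A : Finset ℕ),
      Classes h ((N : ℝ) ^ c) Y → A ⊆ Icc 1 N → (N : ℝ) ^ (1 - c) ≤ (A.card : ℝ) →
      (N : ℝ) ^ (2 - δ) ≤ (pairCount R Y ((N : ℝ) ^ c) ((N : ℝ) ^ (6 / 25 : ℝ)) A : ℝ) := by
  classical
  have hd : 0 < (C 9 * X ^ 2 + 1 : ℤ[X]).natDegree := by rw [deg]; norm_num
  have h0 : (C 9 * X ^ 2 + 1 : ℤ[X]).eval 0 ≠ 0 := by simp
  obtain ⟨c1, R1, hc1, hcδ, H⟩ := Pool.Agent.H540.PS.polyG _ irr hd h0 3 h 1 (fun _ => C 3 * X ^ 2 + 1)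
    (fun i hi => by simp) (by rw [deg]; norm_num) δ hδ
  obtain ⟨c, hc⟩ : ∃ c, c = c1 / 2 := ⟨_, rfl⟩
  have hc0 : 0 < c := by rw [hc]; linarith
  refine ⟨c, R1, hc0, ?_⟩
  filter_upwards [H, (Pool.Agent.H540.PS.tpow (show 0 < c1 - c by rw [hc]; linarith)).eventually_ge_atTop 3,
    eventually_ge_atTop 3] with N hN k1 k2 Y A hY hA hAc
  have hN3 : (3 : ℝ) ≤ N := by exact_mod_cast k2
  have hNp : (0 : ℝ) < N := by linarith
  have hN1 : (1 : ℝ) ≤ N := by linarith
  -- the residue class
  obtain ⟨r, hr3, hr⟩ := Pool.Agent.H540.DS.exists_class A 3 (by norm_num)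
  obtain ⟨A', hA'⟩ : ∃ A', A' = A.filter (fun a => a % 3 = r) := ⟨_, rfl⟩
  rw [← hA'] at hr
  obtain ⟨B, hB⟩ : ∃ B, B = A'.image (fun a => a / 3 + 1) := ⟨_, rfl⟩
  have hinj : Set.InjOn (fun a : ℕ => a / 3 + 1) (A' : Set ℕ) := by
    intro a ha a' ha' he
    rw [mem_coe, hA', mem_filter] at ha ha'
    simp only at he
    omega
  have hBc : B.card = A'.card := by
    rw [hB]
    exact card_image_of_injOn hinj
  have hBc2 : (N : ℝ) ^ (1 - c1) ≤ (B.card : ℝ) := by
    have h1 : (A.card : ℝ) ≤ 3 * (B.card : ℝ) := by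
      rw [hBc]
      exact_mod_cast hr
    have h3 : (N : ℝ) ^ (1 - c) ≤ (N : ℝ) ^ (c1 - c) * B.card :=
      (hAc.trans h1).trans (mul_le_mul_of_nonneg_right k1 (Nat.cast_nonneg _))
    have h4 : (N : ℝ) ^ (c1 - c) * (N : ℝ) ^ (1 - c1) ≤ (N : ℝ) ^ (c1 - c) * B.card := by
      refine le_trans (le_of_eq ?_) h3
      rw [← Real.rpow_add hNp]
      congr 1
      ring
    exact le_of_mul_le_mul_left h4 (by positivity)
  have hcc : (N : ℝ) ^ c ≤ (N : ℝ) ^ c1 := Real.rpow_le_rpow_of_exponent_le hN1 (by rw [hc]; linarith)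
  obtain ⟨Y', hY'⟩ : ∃ Y' : ℕ → Finset ℕ, Y' = fun p : ℕ => if (p : ℝ) ≤ (N : ℝ) ^ c then
    (range p).filter (fun r => 3 * r % p ∈ Y p) else ∅ := ⟨_, rfl⟩
  have hmain := hN Y' B (by
      intro p hp hpc
      rw [hY']
      simp only
      split_ifs with h1
      · exact div_cls h p hp (Y p) (hY p hp h1).1 (hY p hp h1).2
      · exact ⟨by rw [card_empty]; exact Nat.zero_le _, notMem_empty _⟩) (by
      intro b hb
      rw [hB, mem_image] at hb
      obtain ⟨a, ha, rfl⟩ := hb
      rw [hA', mem_filter] at ha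
      have h1 := mem_Icc.1 (hA ha.1)
      rw [mem_Icc]
      omega) hBc2
  refine hmain.trans (Nat.cast_le.2 ?_)
  unfold pairCount
  apply card_le_card_of_injOn (fun w : ℕ × ℕ => (3 * (w.1 - 1) + r, 3 * (w.2 - 1) + r))
  · rintro ⟨x, y⟩ hw
    rw [mem_coe, mem_filter, mem_product, hB, mem_image, mem_image] at hw
    obtain ⟨⟨⟨a, ha, hxa⟩, ⟨b, hb, hyb⟩⟩, hlt, hav, ⟨n, h1, h2, h3⟩, hG⟩ := hw
    simp only at hxa hyb hlt hav h1 hG
    rw [hA', mem_filter] at ha hb
    have ea : 3 * (x - 1) + r = a := by omega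
    have eb : 3 * (y - 1) + r = b := by omega
    rw [mem_coe, mem_filter, mem_product]
    simp only
    rw [ea, eb]
    obtain ⟨m, hm⟩ : ∃ m, m = x - y := ⟨_, rfl⟩
    have hmz : (x : ℤ) - y = (m : ℤ) := by rw [hm, Nat.cast_sub hlt.le]
    have hab : a - b = 3 * m := by omega
    rw [← hm] at hav
    rw [hmz] at h1 hG
    rw [hab]
    refine ⟨⟨ha.1, hb.1⟩, by omega, ?_, ?_, ?_⟩
    · intro p hp hpc hmem
      apply hav p hp (hpc.trans hcc)
      rw [hY']
      simp only
      rw [if_pos hpc, mem_filter, mem_range]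
      refine ⟨Nat.mod_lt _ hp.pos, ?_⟩
      have h5 : 3 * (m % p) % p = 3 * m % p := by
        rw [Nat.mul_mod, Nat.mod_mod, ← Nat.mul_mod]
      rw [h5]
      exact hmem
    · have h4 : ((C 9 * X ^ 2 + 1 : ℤ[X]).eval (m : ℤ)).natAbs = (3 * m) ^ 2 + 1 := by
        simp only [eval_add, eval_mul, eval_pow, eval_X, eval_C, eval_one]
        have : (9 * (m : ℤ) ^ 2 + 1) = (((3 * m) ^ 2 + 1 : ℕ) : ℤ) := by
          push_cast
          ring
        rw [this, Int.natAbs_natCast]
      have h5 : ((C 9 * X ^ 2 + 1 : ℤ[X]).eval 0).natAbs = 1 := by simp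
      rw [h4, h5, one_mul] at h1
      refine ⟨by positivity, ?_, ?_⟩
      · rw [h1]
        exact h2
      · rw [h1]
        exact h3
    · have h4 := hG 0 one_pos
      have h5 : ((C 3 * X ^ 2 + 1 : ℤ[X]).eval (m : ℤ)).natAbs = 3 * m ^ 2 + 1 := by
        simp only [eval_add, eval_mul, eval_pow, eval_X, eval_C, eval_one]
        have : (3 * (m : ℤ) ^ 2 + 1) = ((3 * m ^ 2 + 1 : ℕ) : ℤ) := by
          push_cast
          ring
        rw [this, Int.natAbs_natCast]
      rw [h5] at h4
      refine ⟨3 * m ^ 2 + 1, by ring, h4.1, h4.2.1, ?_⟩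
      intro p hp hpd
      exact hcc.trans (h4.2.2 p hp hpd)
  · rintro ⟨x, y⟩ hw ⟨x', y'⟩ hw' he
    rw [mem_coe, mem_filter, mem_product, hB, mem_image, mem_image] at hw hw'
    obtain ⟨⟨⟨a, ha, hxa⟩, ⟨b, hb, hyb⟩⟩, _⟩ := hw
    obtain ⟨⟨⟨a', ha', hxa'⟩, ⟨b', hb', hyb'⟩⟩, _⟩ := hw'
    simp only [Prod.mk.injEq] at he hxa hyb hxa' hyb' ⊢
    omega

end Pool.Agent.Results.MP_2dba45_nt.DifferencesOfSparseSets
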