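import Pool.Agent.H524.MT.FinS

/-!
# Prime values of an inseparable quadratic polynomial at which another polynomial is almost prime
-/

set_option autoImplicit false

namespace Pool.Agent.Results.MP_2dba45_nt.PrimeAlmostPrimesEvenChar

open Polynomial
open scoped Classical

/-- The number of the zeros of `F` modulo `P`. -/
noncomputable def zeros {K : Type} [Field K] (F : K[X][X]) (P : K[X]) : ℕ :=
  {u : K[X] | u.degree < P.degree ∧ P ∣ F.eval u}.ncard

/-- The product of the `1 - zeros F P / |P|` over the monic irreducible `P` of degree at most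
`d`. -/
noncomputable def density {K : Type} [Field K] [Fintype K] (F : K[X][X]) (d : ℕ) : ℝ :=
  ∏ᶠ P ∈ {P : K[X] | P.Monic ∧ Irreducible P ∧ P.natDegree ≤ d},
    (1 - (zeros F P : ℝ) / (Fintype.card K : ℝ) ^ P.natDegree)

theorem density_eq {K : Type} [Field K] [Fintype K] (F : K[X][X]) (d : ℕ) :
    density F d = Pool.Agent.H524.MT.Sh.dn F d := by
  have h : {P : K[X] | P.Monic ∧ Irreducible P ∧ P.natDegree ≤ d} =
      ((Pool.Agent.H694.Typ.PU K d : Finset K[X]) : Set K[X]) := by
    ext P
    rw [Finset.mem_coe, Pool.Agent.H694.Typ.mem_PU]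
    exact Iff.rfl
  unfold density
  rw [h, finprod_mem_coe_finset]
  rfl

/-- **Prime and almost primes.**  `f = α T ^ 2 + β` irreducible in `K[X][T]`, `G` any polynomial
such that `f G` has no fixed prime divisor: there are `δ, c > 0` and `r` such that for large `d` at
least `c q ^ d density (f G) d` monic `a` of degree `d` are such that `f(a)` is irreducible and
`G(a)` is a product of at most `r` irreducible polynomials, all of degree at least `δ d`. -/
theorem result (K : Type) [Field K] [Fintype K] [CharP K 2] (f G : K[X][X])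
    (hf : Irreducible f) (hd : f.natDegree = 2) (hder : derivative f = 0)
    (hadm : ∀ P : K[X], Irreducible P → ∃ a : K[X], ¬ P ∣ (f * G).eval a) :
    ∃ (δ c : ℝ) (r d₀ : ℕ), 0 < δ ∧ 0 < c ∧ ∀ d : ℕ, d₀ ≤ d →
      c * (Fintype.card K : ℝ) ^ d * density (f * G) d ≤
        ({a : K[X] | a.Monic ∧ a.natDegree = d ∧ Irreducible (f.eval a) ∧
          (UniqueFactorizationMonoid.normalizedFactors (G.eval a)).card ≤ r ∧ G.eval a ≠ 0 ∧
          ∀ P : K[X], Irreducible P → P ∣ G.eval a → δ * d ≤ P.natDegree}.ncard : ℝ) := by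
  obtain ⟨δ, c, r, d₀, hδ, hc, H⟩ := Pool.Agent.H524.MT.aprr Pool.Agent.H524.MT.s_aprs K f G hf
    (Or.inr ⟨hd, hder⟩) hadm
  refine ⟨δ, c, r, d₀, hδ, hc, fun d hd => ?_⟩
  rw [density_eq]
  exact H d hd

end Pool.Agent.Results.MP_2dba45_nt.PrimeAlmostPrimesEvenChar
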